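import Pool.Agent.H5.SC.Targets

/-!
# Row GR (MP_04ff0f_nt, SmallCofactors): a greedy divisor of the smooth part
-/

set_option autoImplicit false

open Finset Real

namespace Pool.Agent.H1.SC

open Pool.Agent.H5.SC

theorem sm_dvd {y N : ℕ} (hN : N ≠ 0) : sm y N ∣ N := by
  have h1 : N = ∏ q ∈ N.primeFactors, q ^ N.factorization q := by
    conv_lhs => rw [← Nat.prod_factorization_pow_eq_self hN]
    rfl
  conv_rhs => rw [h1]
  exact Finset.prod_dvd_prod_of_subset _ _ _ (Finset.filter_subset _ _)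

theorem sm_prime {y N q : ℕ} (hq : q.Prime) (h : q ∣ sm y N) : q ≤ y := by
  unfold sm at h
  obtain ⟨q', hq', hd⟩ := (Prime.dvd_finset_prod_iff hq.prime _).1 h
  rw [Finset.mem_filter, Nat.mem_primeFactors] at hq'
  have h2 := (Nat.prime_dvd_prime_iff_eq hq hq'.1.1).1 (hq.dvd_of_dvd_pow hd)
  rw [h2]
  exact hq'.2

theorem pf_GR : T_GR := by
  intro y D N hN hD hs
  have hs0 : sm y N ≠ 0 := by omega
  obtain ⟨d, hd, hmax⟩ := Finset.exists_max_image ((sm y N).divisors.filter (· ≤ D)) id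
    ⟨1, by simp [hs0, hD]⟩
  rw [Finset.mem_filter, Nat.mem_divisors] at hd
  obtain ⟨⟨hd1, -⟩, hd2⟩ := hd
  have hd0 : 0 < d := Nat.pos_of_dvd_of_pos hd1 (Nat.pos_of_ne_zero hs0)
  obtain ⟨e, he⟩ := hd1
  have he1 : e ≠ 1 := by
    rintro rfl
    omega
  obtain ⟨q, hq, hqe⟩ := Nat.exists_prime_and_dvd he1
  have hqs : q ∣ sm y N := hqe.trans ⟨d, by rw [he]; ring⟩
  have hqy := sm_prime hq hqs
  refine ⟨d, (Dvd.intro _ he.symm).trans (sm_dvd hN), fun p hp => ?_, hd2, ?_⟩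
  · rw [Nat.mem_primeFactors] at hp
    exact sm_prime hp.1 (hp.2.1.trans (Dvd.intro _ he.symm))
  · by_contra hc
    push Not at hc
    have h1 : d * q ≤ D := (Nat.mul_le_mul_left d hqy).trans hc
    have h2 : d * q ∈ (sm y N).divisors.filter (· ≤ D) := by
      rw [Finset.mem_filter, Nat.mem_divisors]
      refine ⟨⟨?_, hs0⟩, h1⟩
      rw [he]
      exact Nat.mul_dvd_mul_left d hqe
    have h3 : d * q ≤ d := hmax _ h2
    have h4 := hq.two_le
    nlinarith

end Pool.Agent.H1.SC
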