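import Pool.Agent.H5.SC.Targets
import Pool.Agent.H12.PF.MR

/-!
# Row RS (MP_04ff0f_nt, SmallCofactors): the Rankin sum
-/

set_option autoImplicit false

open Finset Real

namespace Pool.Agent.H1.SC

open Pool.Agent.H5.SC

/-- the summand -/
noncomputable def fR (σ : ℝ) (d : ℕ) : ℝ :=
  if Odd d then (2 : ℝ) ^ d.primeFactors.card / (d.totient : ℝ) * (d : ℝ) ^ σ else 0

theorem fR_nonneg (σ : ℝ) (d : ℕ) : 0 ≤ fR σ d := by
  unfold fR
  split_ifs
  · positivity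
  · exact le_rfl

theorem fR_one (σ : ℝ) : fR σ 1 = 1 := by simp [fR]

theorem fR_mul (σ : ℝ) {m n : ℕ} (h : Nat.Coprime m n) : fR σ (m * n) = fR σ m * fR σ n := by
  unfold fR
  by_cases hm : Odd m
  · by_cases hn : Odd n
    · rw [if_pos hm, if_pos hn, if_pos (hm.mul hn), Nat.Coprime.primeFactors_mul h,
        Finset.card_union_of_disjoint h.disjoint_primeFactors, Nat.totient_mul h, pow_add]
      push_cast
      rw [Real.mul_rpow (Nat.cast_nonneg _) (Nat.cast_nonneg _)]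
      rw [mul_div_mul_comm]
      ring
    · rw [if_neg hn, if_neg (fun h' => hn (Nat.odd_mul.1 h').2), mul_zero]
  · rw [if_neg hm, if_neg (fun h' => hm (Nat.odd_mul.1 h').1), zero_mul]

theorem fR_two (σ : ℝ) (n : ℕ) : fR σ (2 ^ n) = if n = 0 then 1 else 0 := by
  rcases n with _ | n
  · simp [fR_one]
  · unfold fR
    rw [if_neg (by
      rw [Nat.not_odd_iff_even]
      exact (even_two.pow_of_ne_zero (by omega)))]
    simp

/-- the values at prime powers -/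
theorem fR_pp (σ : ℝ) {p : ℕ} (hp : p.Prime) (hp2 : p ≠ 2) (n : ℕ) :
    fR σ (p ^ (n + 1)) = 2 * ((p : ℝ) / (p - 1)) * ((p : ℝ) ^ (σ - 1)) ^ (n + 1) := by
  have hodd : Odd (p ^ (n + 1)) := (hp.odd_of_ne_two hp2).pow
  have hp0 : (0 : ℝ) < p := by exact_mod_cast hp.pos
  have hp1 : (1 : ℝ) < p := by exact_mod_cast hp.one_lt
  unfold fR
  rw [if_pos hodd, Nat.primeFactors_prime_pow (by omega) hp, Finset.card_singleton, pow_one,
    Nat.totient_prime_pow_succ hp]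
  push_cast [Nat.cast_sub hp.one_le]
  have h1 : ((p : ℝ) ^ (n + 1)) ^ σ = ((p : ℝ) ^ σ) ^ (n + 1) := by
    rw [← Real.rpow_natCast, ← Real.rpow_mul hp0.le, mul_comm, Real.rpow_mul hp0.le,
      Real.rpow_natCast]
  have h2 : ((p : ℝ) ^ (σ - 1)) ^ (n + 1) = ((p : ℝ) ^ σ) ^ (n + 1) / (p : ℝ) ^ (n + 1) := by
    rw [Real.rpow_sub hp0, Real.rpow_one, div_pow]
  rw [h1, h2]
  have h3 : (p : ℝ) - 1 ≠ 0 := by linarith
  have h4 : (p : ℝ) ^ n ≠ 0 := by positivity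
  have h5 : (p : ℝ) ≠ 0 := hp0.ne'
  field_simp
  ring

theorem r_le {σ : ℝ} (hσ : σ ≤ 1 / 4) {p : ℕ} (hp3 : 3 ≤ p) :
    (p : ℝ) ^ (σ - 1) ≤ 1 / 2 := by
  have h1 : (3 : ℝ) ≤ p := by exact_mod_cast hp3
  have h2 : (p : ℝ) ^ (σ - 1) ≤ (p : ℝ) ^ (-(3 / 4) : ℝ) :=
    Real.rpow_le_rpow_of_exponent_le (by linarith) (by linarith)
  have h3 : (p : ℝ) ^ (-(3 / 4) : ℝ) ≤ (3 : ℝ) ^ (-(3 / 4) : ℝ) :=
    Real.rpow_le_rpow_of_nonpos (by norm_num) h1 (by norm_num)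
  have h4 : (3 : ℝ) ^ (-(3 / 4) : ℝ) ≤ 1 / 2 := by
    rw [Real.rpow_neg (by norm_num), one_div]
    refine inv_anti₀ (by norm_num) ?_
    have h5 : (2 : ℝ) = (16 : ℝ) ^ (1 / 4 : ℝ) := by
      rw [show (16 : ℝ) = 2 ^ (4 : ℝ) by norm_num, ← Real.rpow_mul (by norm_num)]
      norm_num
    have h6 : (3 : ℝ) ^ (3 / 4 : ℝ) = (27 : ℝ) ^ (1 / 4 : ℝ) := by
      rw [show (27 : ℝ) = 3 ^ (3 : ℝ) by norm_num, ← Real.rpow_mul (by norm_num)]
      norm_num
    rw [h5, h6]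
    exact Real.rpow_le_rpow (by norm_num) (by norm_num) (by norm_num)
  linarith

theorem r_pos (σ : ℝ) {p : ℕ} (hp : 0 < p) : 0 < (p : ℝ) ^ (σ - 1) :=
  Real.rpow_pos_of_pos (by exact_mod_cast hp) _

theorem r_lt {σ : ℝ} (hσ : σ ≤ 1 / 4) {p : ℕ} (hp2 : 2 ≤ p) : (p : ℝ) ^ (σ - 1) < 1 :=
  Real.rpow_lt_one_of_one_lt_of_neg (by exact_mod_cast (by omega : 1 < p)) (by linarith)

theorem summ_pp {σ : ℝ} (hσ : σ ≤ 1 / 4) {p : ℕ} (hp : p.Prime) :
    Summable fun n : ℕ => fR σ (p ^ n) := by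
  by_cases hp2 : p = 2
  · subst hp2
    refine summable_of_ne_finset_zero (s := {0}) fun n hn => ?_
    rw [fR_two, if_neg (by simpa using hn)]
  · rw [← summable_nat_add_iff 1]
    simp only [fR_pp σ hp hp2]
    refine Summable.mul_left _ ?_
    exact (summable_nat_add_iff 1).2
      (summable_geometric_of_lt_one (r_pos σ hp.pos).le (r_lt hσ hp.two_le))

theorem tsum_pp {σ : ℝ} (hσ0 : 0 ≤ σ) (hσ : σ ≤ 1 / 4) {p : ℕ} (hp : p.Prime) (hp2 : p ≠ 2) :
    ∑' n : ℕ, fR σ (p ^ n) ≤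
      exp (2 * (p : ℝ) ^ (σ - 1) + 12 * ((p : ℝ) ^ (σ - 1)) ^ 2) := by
  have hp3 : 3 ≤ p := by
    have := hp.two_le
    omega
  have hp3' : (3 : ℝ) ≤ p := by exact_mod_cast hp3
  set r := (p : ℝ) ^ (σ - 1) with hr
  have hr0 : 0 < r := r_pos σ hp.pos
  have hr1 : r ≤ 1 / 2 := r_le hσ hp3
  rw [(summ_pp hσ hp).tsum_eq_zero_add]
  simp only [fR_pp σ hp hp2, pow_zero, fR_one]
  rw [← hr, tsum_mul_left]
  have h1 : ∑' n : ℕ, r ^ (n + 1) = r / (1 - r) := by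
    have : ∀ n : ℕ, r ^ (n + 1) = r * r ^ n := fun n => by ring
    simp only [this]
    rw [tsum_mul_left, tsum_geometric_of_lt_one hr0.le (by linarith), div_eq_mul_inv]
  rw [h1]
  -- p / (p - 1) ≤ 1 + 2 r
  have h2 : (p : ℝ) / (p - 1) ≤ 1 + 2 * r := by
    have h3 : 1 / (p : ℝ) ≤ r := by
      rw [hr, one_div, ← Real.rpow_neg_one]
      exact Real.rpow_le_rpow_of_exponent_le (by linarith) (by linarith)
    rw [div_le_iff₀ (by linarith)]
    have h4 : 1 ≤ r * p := by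
      rw [div_le_iff₀ (by linarith)] at h3
      exact h3
    nlinarith
  have h5 : r / (1 - r) ≤ r * (1 + 2 * r) := by
    rw [div_le_iff₀ (by linarith)]
    nlinarith [mul_pos hr0 hr0]
  have h6 : 0 ≤ (p : ℝ) / (p - 1) := div_nonneg (by linarith) (by linarith)
  have h7 : (p : ℝ) / (p - 1) * (r / (1 - r)) ≤ (1 + 2 * r) * (r * (1 + 2 * r)) :=
    mul_le_mul h2 h5 (div_nonneg hr0.le (by linarith)) (by linarith)
  refine le_trans ?_ (Real.add_one_le_exp _)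
  have h8 : 2 * ((p : ℝ) / (p - 1)) * (r / (1 - r)) = 2 * ((p : ℝ) / (p - 1) * (r / (1 - r))) := by
    ring
  rw [h8]
  nlinarith [mul_pos hr0 hr0, mul_pos (mul_pos hr0 hr0) hr0]

/-- the exponent -/
noncomputable def gR (σ : ℝ) (p : ℕ) : ℝ :=
  if p = 2 then 0 else 2 * (p : ℝ) ^ (σ - 1) + 12 * ((p : ℝ) ^ (σ - 1)) ^ 2

theorem prod_le {σ : ℝ} (hσ0 : 0 ≤ σ) (hσ : σ ≤ 1 / 4) (y : ℕ) :
    ∏ p ∈ (y + 1).primesBelow, ∑' n : ℕ, fR σ (p ^ n) ≤
      exp (∑ p ∈ (Ioc 2 y).filter Nat.Prime,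
        (2 * (p : ℝ) ^ (σ - 1) + 12 * ((p : ℝ) ^ (σ - 1)) ^ 2)) := by
  have h1 : ∑ p ∈ (Ioc 2 y).filter Nat.Prime,
      (2 * (p : ℝ) ^ (σ - 1) + 12 * ((p : ℝ) ^ (σ - 1)) ^ 2) =
      ∑ p ∈ (y + 1).primesBelow, gR σ p := by
    rw [← Finset.sum_subset (s₁ := (Ioc 2 y).filter Nat.Prime) (s₂ := (y + 1).primesBelow)
      (f := gR σ)]
    · refine Finset.sum_congr rfl fun p hp => ?_
      rw [Finset.mem_filter, Finset.mem_Ioc] at hp
      unfold gR
      rw [if_neg (by omega)]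
    · intro p hp
      rw [Finset.mem_filter, Finset.mem_Ioc] at hp
      rw [Nat.mem_primesBelow]
      exact ⟨by omega, hp.2⟩
    · intro p hp hp'
      rw [Nat.mem_primesBelow] at hp
      rw [Finset.mem_filter, Finset.mem_Ioc] at hp'
      have := hp.2.two_le
      unfold gR
      rw [if_pos]
      by_contra hne
      exact hp' ⟨⟨by omega, by omega⟩, hp.2⟩
  rw [h1, Real.exp_sum]
  refine Finset.prod_le_prod (fun p _ => tsum_nonneg fun n => fR_nonneg σ _) fun p hp => ?_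
  rw [Nat.mem_primesBelow] at hp
  unfold gR
  split_ifs with h2
  · subst h2
    simp only [fR_two]
    rw [tsum_ite_eq]
    simp
  · exact tsum_pp hσ0 hσ hp.2 h2

theorem sum_le {σ : ℝ} (hσ0 : 0 ≤ σ) (hσ : σ ≤ 1 / 4) (y : ℕ) (S : Finset ℕ)
    (hS : ∀ d ∈ S, d ≠ 0 ∧ ∀ q ∈ d.primeFactors, q ≤ y) :
    ∑ d ∈ S, fR σ d ≤ exp (∑ p ∈ (Ioc 2 y).filter Nat.Prime,
        (2 * (p : ℝ) ^ (σ - 1) + 12 * ((p : ℝ) ^ (σ - 1)) ^ 2)) := by
  have h1 := (EulerProduct.summable_and_hasSum_smoothNumbers_prod_primesBelow_tsum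
    (f := fR σ) (fR_one σ) (fun {m n} h => fR_mul σ h) (fun {p} hp => by
      simpa [abs_of_nonneg (fR_nonneg σ _)] using summ_pp hσ hp) (y + 1)).2
  have h2 := (hasSum_subtype_iff_indicator (f := fR σ) (s := (y + 1).smoothNumbers)).1 h1
  have h3 : ∑ d ∈ S, fR σ d = ∑ d ∈ S, ((y + 1).smoothNumbers).indicator (fR σ) d := by
    refine Finset.sum_congr rfl fun d hd => ?_
    rw [Set.indicator_of_mem]
    rw [Nat.mem_smoothNumbers]
    refine ⟨(hS d hd).1, fun p hp => ?_⟩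
    have := (hS d hd).2 p (by rwa [Nat.mem_primeFactors_iff_mem_primeFactorsList])
    omega
  rw [h3]
  refine (sum_le_hasSum S (fun d _ => Set.indicator_nonneg (fun d _ => fR_nonneg σ d) d) h2).trans
    (prod_le hσ0 hσ y)

/-- the exponential sums -/
theorem exp_le {κ : ℝ} {y p : ℕ} (hy : 2 ≤ y) (hκ : 0 ≤ κ) (hp : 0 < p) (hpy : p ≤ y) :
    (p : ℝ) ^ (κ / log y - 1) ≤ 1 / p + κ / log y * exp κ * (log p / p) := by
  have hp0 : (0 : ℝ) < p := by exact_mod_cast hp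
  have hp1 : (1 : ℝ) ≤ p := by exact_mod_cast hp
  have hly : 0 < log y := Real.log_pos (by exact_mod_cast (by omega : 1 < y))
  have hlp : 0 ≤ log p := Real.log_nonneg hp1
  rw [Real.rpow_sub hp0, Real.rpow_one, Real.rpow_def_of_pos hp0]
  set t := log p * (κ / log y) with ht
  have ht0 : 0 ≤ t := by positivity
  have htκ : t ≤ κ := by
    have h1 : log p ≤ log y := Real.log_le_log hp0 (by exact_mod_cast hpy)
    have h2 : t = κ * (log p / log y) := by rw [ht]; ring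
    rw [h2]
    have h3 : log p / log y ≤ 1 := (div_le_one hly).2 h1
    nlinarith
  have h4 : exp t ≤ 1 + t * exp κ := by
    have h5 : exp t * (1 - t) ≤ 1 := by
      have h6 := Real.add_one_le_exp (-t)
      have h7 : exp t * exp (-t) = 1 := by rw [← Real.exp_add]; simp
      nlinarith [Real.exp_pos t]
    have h8 : t * exp t ≤ t * exp κ := mul_le_mul_of_nonneg_left (Real.exp_le_exp.2 htκ) ht0
    nlinarith
  calc exp t / p ≤ (1 + t * exp κ) / p := div_le_div_of_nonneg_right h4 hp0.le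
    _ = 1 / p + κ / log y * exp κ * (log p / p) := by rw [ht]; ring

theorem pf_RS : T_RS := by
  obtain ⟨C0, hC0⟩ := Pool.Agent.H12.PF.mr
  have hsum : Summable fun n : ℕ => (n : ℝ) ^ (-(3 / 2) : ℝ) :=
    Real.summable_nat_rpow.2 (by norm_num)
  set C2 : ℝ := ∑' n : ℕ, (n : ℝ) ^ (-(3 / 2) : ℝ) with hC2
  have hC2' : 0 ≤ C2 := tsum_nonneg fun n => Real.rpow_nonneg (Nat.cast_nonneg _) _
  refine ⟨10 + 2 * |C0| + 2 * |log (log 2)| + 12 * C2, by positivity, ?_⟩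
  intro y D X κ hy hκ hκy hD
  have hy1 : (1 : ℝ) < y := by exact_mod_cast (by omega : 1 < y)
  have hy16 : (16 : ℝ) ≤ y := by exact_mod_cast hy
  have hl2 : (0 : ℝ) < log 2 := Real.log_pos (by norm_num)
  have hl2' := Real.log_two_gt_d9
  have hly : 2 ≤ log y := by
    have h1 : log 16 ≤ log y := Real.log_le_log (by norm_num) hy16
    have h2 : log 16 = 4 * log 2 := by
      rw [show (16 : ℝ) = 2 ^ 4 by norm_num, Real.log_pow]
      norm_num
    linarith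
  have hly0 : 0 < log y := by linarith
  have hD0 : (0 : ℝ) < D := by exact_mod_cast hD
  set σ := κ / log y with hσd
  have hσ0 : 0 ≤ σ := by positivity
  have hσ : σ ≤ 1 / 4 := by
    rw [hσd, div_le_iff₀ hly0]
    linarith
  set S := (Icc 1 X).filter (fun d => Odd d ∧ (∀ q ∈ d.primeFactors, q ≤ y) ∧ D < d * y) with hS
  have h1 : ∑ d ∈ S, (2 : ℝ) ^ d.primeFactors.card / (d.totient : ℝ) ≤
      ((y : ℝ) / D) ^ σ * ∑ d ∈ S, fR σ d := by
    rw [Finset.mul_sum]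
    refine Finset.sum_le_sum fun d hd => ?_
    rw [hS, Finset.mem_filter, Finset.mem_Icc] at hd
    obtain ⟨⟨hd1, -⟩, hodd, -, hdD⟩ := hd
    have hd0 : (0 : ℝ) < d := by exact_mod_cast hd1
    unfold fR
    rw [if_pos hodd]
    have h2 : (1 : ℝ) ≤ ((y : ℝ) / D) ^ σ * (d : ℝ) ^ σ := by
      rw [← Real.mul_rpow (by positivity) hd0.le]
      refine Real.one_le_rpow ?_ hσ0
      rw [div_mul_eq_mul_div, le_div_iff₀ hD0]
      have : (D : ℝ) < d * y := by exact_mod_cast hdD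
      linarith
    have h3 : 0 ≤ (2 : ℝ) ^ d.primeFactors.card / (d.totient : ℝ) := by positivity
    nlinarith
  have h4 : ∑ d ∈ S, fR σ d ≤ exp (∑ p ∈ (Ioc 2 y).filter Nat.Prime,
        (2 * (p : ℝ) ^ (σ - 1) + 12 * ((p : ℝ) ^ (σ - 1)) ^ 2)) := by
    refine sum_le hσ0 hσ y S fun d hd => ?_
    rw [hS, Finset.mem_filter, Finset.mem_Icc] at hd
    exact ⟨by omega, hd.2.2.1⟩
  have h5 : ∑ p ∈ (Ioc 2 y).filter Nat.Prime, (p : ℝ) ^ (σ - 1) ≤
      ∑ p ∈ (Ioc 2 y).filter Nat.Prime, (1 : ℝ) / p +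
        σ * exp κ * ∑ p ∈ (Ioc 2 y).filter Nat.Prime, log p / p := by
    rw [Finset.mul_sum, ← Finset.sum_add_distrib]
    refine Finset.sum_le_sum fun p hp => ?_
    rw [Finset.mem_filter, Finset.mem_Ioc] at hp
    exact exp_le (by omega) hκ.le (by omega) hp.1.2
  have h6 := hC0 2 y le_rfl (by omega)
  have h7 := Pool.Agent.H12.PF.A_le 2 y le_rfl (by omega)
  have h8 : ∑ p ∈ (Ioc 2 y).filter Nat.Prime, ((p : ℝ) ^ (σ - 1)) ^ 2 ≤ C2 := by
    refine le_trans ?_ (hsum.sum_le_tsum ((Ioc 2 y).filter Nat.Prime)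
      fun n _ => Real.rpow_nonneg (Nat.cast_nonneg _) _)
    refine Finset.sum_le_sum fun p hp => ?_
    rw [Finset.mem_filter, Finset.mem_Ioc] at hp
    have hp1 : (1 : ℝ) ≤ p := by exact_mod_cast (by omega : 1 ≤ p)
    rw [← Real.rpow_natCast, ← Real.rpow_mul (by linarith)]
    refine Real.rpow_le_rpow_of_exponent_le hp1 ?_
    push_cast
    linarith
  rw [Finset.sum_add_distrib, ← Finset.mul_sum, ← Finset.mul_sum] at h4
  have h9 : log (log y / log ((2 : ℕ) : ℝ)) = log (log y) - log (log 2) := by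
    push_cast
    rw [Real.log_div hly0.ne' hl2.ne']
  have h10 : σ * exp κ * ∑ p ∈ (Ioc 2 y).filter Nat.Prime, log p / p ≤ 5 * (κ * exp κ) := by
    have h11 : σ * exp κ * ∑ p ∈ (Ioc 2 y).filter Nat.Prime, log p / p ≤
        σ * exp κ * (log y + 8) := by
      refine mul_le_mul_of_nonneg_left ?_ (by positivity)
      push_cast at h7
      linarith
    refine h11.trans ?_
    have h12 : σ * exp κ * (log y + 8) = κ * exp κ * ((log y + 8) / log y) := by
      rw [hσd]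
      field_simp
    rw [h12]
    have h13 : (log y + 8) / log y ≤ 5 := by
      rw [div_le_iff₀ hly0]
      linarith
    have h14 : 0 ≤ κ * exp κ := by positivity
    nlinarith
  have h15 : ((y : ℝ) / D) ^ σ = exp (-(κ * (log D / log y - 1))) := by
    rw [Real.rpow_def_of_pos (by positivity), Real.log_div (by linarith) hD0.ne', hσd]
    congr 1
    field_simp
    ring
  rw [h9] at h6
  refine h1.trans ?_
  rw [h15]
  refine (mul_le_mul_of_nonneg_left h4 (Real.exp_pos _).le).trans ?_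
  rw [← Real.exp_add, Real.exp_le_exp]
  have h16 := le_abs_self C0
  have h17 := neg_abs_le (log (log 2))
  have h18 : 0 ≤ κ * exp κ := by positivity
  have h19 : 0 ≤ (2 * |C0| + 2 * |log (log 2)| + 12 * C2) * (κ * exp κ) := by positivity
  nlinarith

end Pool.Agent.H1.SC
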